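import Pool.Agent.Lib_helper9.Parab.Main

/-!
# Distributional solutions that are not parabolic, for drifts in `L^r_t L^∞_x`, `r < 2`

For every dimension `d ≥ 2` and every `T > 0` there are a divergence-free drift `b` which is in
`L^r([0,T]; L^p(T^d))` for all `1 ≤ r < 2` and all `1 ≤ p ≤ ∞`, and a distributional solution
`u ∈ L^∞([0,T]; L^q(T^d))`, for all `1 ≤ q ≤ ∞`, of `∂_t u + div (b u) = Δ u` with datum `0`,
which is not in `L²([0,T]; H¹(T^d))`.
-/

open Pool.Agent.Lib_helper9.Parab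

namespace Pool.Agent.Results.MP_051498_an.NonParabolic

theorem result (d : ℕ) (hd : 2 ≤ d) (T : ℝ) (hT : 0 < T) :
    ∃ (b : ℝ → (Fin d → ℝ) → (Fin d → ℝ)) (u : ℝ → (Fin d → ℝ) → ℝ),
      (∀ t, IsPeriodic (b t)) ∧ (∀ t, IsPeriodic (u t)) ∧ IsDivFree T b ∧
      (∀ r p : ENNReal, 1 ≤ r → r < 2 → 1 ≤ p → MemMixed r p T b) ∧
      (∀ q : ENNReal, 1 ≤ q → MemMixed ⊤ q T u) ∧
      IsDistributionalSolution T b (fun _ => 0) u ∧ ¬ IsParabolic T u :=
  main d hd T hT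

end Pool.Agent.Results.MP_051498_an.NonParabolic
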